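import Pool.Agent.P.MP_f644fa_ag.ZMain
import Pool.Agent.P.MP_f644fa_ag.Tg7

/-! Hartshorne's conjecture for manifolds covered by lines, of large index. -/

namespace Pool.Agent.Results.MP_f644fa_ag.HalfIndex
open Pool.Agent.HCF

/-- Let `X ⊆ ℙ^(n+c)` be a nondegenerate manifold of dimension `n ≥ 2 c + 1` and codimension `c`
with homogeneous ideal `I` and `K_X = b H`, such that every point of `X` lies on a line of `X`.
If `- b ≥ min ((n + 3) / 2 + c) ((3 n + 5) / 4)`, then `X` is a complete intersection. -/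
theorem result (n c : ℕ) (b : ℤ) (I : Ideal (MvPolynomial (Fin (n + 1 + c)) ℂ))
    (hX : IsManifold I c) (hK : CanonicalIs I c b)
    (hnd : ∀ η : Fin (n + 1 + c) → ℂ, (∀ x ∈ cone I, ∑ j, η j * x j = 0) → η = 0)
    (hL : ∀ x ∈ cone I, ∃ y, LinearIndependent ℂ ![x, y] ∧
      ∀ s t : ℂ, ∀ f ∈ I, MvPolynomial.eval (s • x + t • y) f = 0)
    (hc : 2 * c + 1 ≤ n) (hi : min (2 * (n : ℤ) + 6 + 4 * c) (3 * n + 5) ≤ -4 * b) :
    ∃ (f : Fin c → MvPolynomial (Fin (n + 1 + c)) ℂ) (d : Fin c → ℕ),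
      (∀ i, (f i).IsHomogeneous (d i)) ∧ I = Ideal.span (Set.range f) :=
  quarter_main hX rfl hK hnd hL hc hi

/-- Control of the definition: for a smooth complete intersection of positive dimension with
degrees `d i`, `K_X = b H` in our sense holds exactly for `b = ∑ d i - (n + 1 + c)` (adjunction
formula). -/
theorem canonical_iff_degrees (n c : ℕ) (b : ℤ) (hn : 1 ≤ n)
    (f : Fin c → MvPolynomial (Fin (n + 1 + c)) ℂ) (d : Fin c → ℕ)
    (hf : ∀ i, (f i).IsHomogeneous (d i)) (hX : IsManifold (Ideal.span (Set.range f)) c) :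
    CanonicalIs (Ideal.span (Set.range f)) c b ↔ b = ∑ i, (d i : ℤ) - (n + 1 + c) :=
  (Tg.canonical_iff hf hX rfl hn b).trans (by push_cast; rfl)

/-- All six hypotheses hold together in every codimension `c` and dimension `n ≥ 4 c + 1` (an
intersection of `c` diagonal quadrics). -/
theorem hypotheses_hold (n c : ℕ) (h : 4 * c + 1 ≤ n) :
    ∃ (b : ℤ) (I : Ideal (MvPolynomial (Fin (n + 1 + c)) ℂ)), IsManifold I c ∧ CanonicalIs I c b ∧
      (∀ η : Fin (n + 1 + c) → ℂ, (∀ x ∈ cone I, ∑ j, η j * x j = 0) → η = 0) ∧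
      (∀ x ∈ cone I, ∃ y, LinearIndependent ℂ ![x, y] ∧
        ∀ s t : ℂ, ∀ f ∈ I, MvPolynomial.eval (s • x + t • y) f = 0) ∧
      2 * c + 1 ≤ n ∧ min (2 * (n : ℤ) + 6 + 4 * c) (3 * n + 5) ≤ -4 * b :=
  ⟨_, Tg.dI (n + 1 + c) c, Tg.dI_manifold (by omega),
    Tg.canonical_ci (d := fun _ => 2) Tg.dq_hom (Tg.dI_manifold (by omega)),
    Tg.dI_nondeg (by omega), Tg.dI_lines (by omega), by omega, (min_le_right _ _).trans (by
      simp only [Finset.sum_const, Finset.card_univ, Fintype.card_fin, nsmul_eq_mul]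
      push_cast
      omega)⟩

end Pool.Agent.Results.MP_f644fa_ag.HalfIndex
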