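import Pool.Agent.P.MP_f644fa_ag.QMain
import Pool.Agent.P.MP_f644fa_ag.Tg8

/-! Hartshorne's conjecture for Fano manifolds whose dimension is nearly quadratic in the
codimension. -/

namespace Pool.Agent.Results.MP_f644fa_ag.PolyDim
open Pool.Agent.HCF

/-- Let `X ⊆ ℙ^(n+c)` be a Fano manifold of dimension `n` and codimension `c` with homogeneous
ideal `I`.  If `n ≥ 10000 c² (⌊log₂ n⌋ + 1)³`, or `n + c ≥ c (2^(c-1) + 1)²`, then `X` is a
complete intersection. -/
theorem result (n c : ℕ) (I : Ideal (MvPolynomial (Fin (n + 1 + c)) ℂ)) (hX : IsManifold I c)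
    (hF : IsFano I c)
    (hn : 10000 * c ^ 2 * (Nat.log 2 n + 1) ^ 3 ≤ n ∨ c * (2 ^ (c - 1) + 1) ^ 2 ≤ n + c) :
    ∃ (f : Fin c → MvPolynomial (Fin (n + 1 + c)) ℂ) (d : Fin c → ℕ),
      (∀ i, (f i).IsHomogeneous (d i)) ∧ I = Ideal.span (Set.range f) :=
  hn.elim (main_poly hX rfl hF) (main_large hX rfl hF)

/-- Control of the definition: a smooth complete intersection of positive dimension with degrees
`d i` is Fano in our sense exactly when `∑ d i ≤ n + c` (adjunction formula). -/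
theorem fano_iff_degrees (n c : ℕ) (hn : 1 ≤ n) (f : Fin c → MvPolynomial (Fin (n + 1 + c)) ℂ)
    (d : Fin c → ℕ) (hf : ∀ i, (f i).IsHomogeneous (d i))
    (hX : IsManifold (Ideal.span (Set.range f)) c) :
    IsFano (Ideal.span (Set.range f)) c ↔ ∑ i, d i ≤ n + c :=
  (Tg.fano_iff hf hX rfl hn).trans (by omega)

/-- Control of the definition, in the form of the problem file: if `K_X = b H`, then `X` is Fano
in our sense exactly when `b < 0`. -/
theorem fano_iff_negative (n c : ℕ) (b : ℤ) (hn : 1 ≤ n)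
    (I : Ideal (MvPolynomial (Fin (n + 1 + c)) ℂ)) (hX : IsManifold I c)
    (hK : CanonicalIs I c b) : IsFano I c ↔ b < 0 :=
  Tg.fano_iff_neg hX rfl hn hK

/-- Control of `K_X = b H` on complete intersections (adjunction formula). -/
theorem canonical_iff_degrees (n c : ℕ) (b : ℤ) (hn : 1 ≤ n)
    (f : Fin c → MvPolynomial (Fin (n + 1 + c)) ℂ) (d : Fin c → ℕ)
    (hf : ∀ i, (f i).IsHomogeneous (d i)) (hX : IsManifold (Ideal.span (Set.range f)) c) :
    CanonicalIs (Ideal.span (Set.range f)) c b ↔ b = ∑ i, (d i : ℤ) - (n + 1 + c) :=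
  (Tg.canonical_iff hf hX rfl hn b).trans (by push_cast; rfl)

/-- The hypotheses hold in every dimension `n ≥ max 1 c` and codimension `c`, for a nondegenerate
variety (an intersection of `c` diagonal quadrics). -/
theorem hypotheses_hold (n c : ℕ) (hn : 1 ≤ n) (hc : c ≤ n) :
    ∃ I : Ideal (MvPolynomial (Fin (n + 1 + c)) ℂ), IsManifold I c ∧ IsFano I c ∧
      ∀ η : Fin (n + 1 + c) → ℂ, (∀ x ∈ cone I, ∑ j, η j * x j = 0) → η = 0 :=
  ⟨Tg.dI (n + 1 + c) c, Tg.dI_manifold (by omega),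
    Tg.fano_ci (d := fun _ => 2) Tg.dq_hom (Tg.dI_manifold (by omega)) (by simp; omega),
    Tg.dI_nondeg (by omega)⟩

/-- The definitions do not contain the conclusion: the twisted cubic (`n = 1`, `c = 2`) is a
nondegenerate Fano manifold whose ideal is not generated by two polynomials. -/
theorem not_automatic : ∃ I : Ideal (MvPolynomial (Fin (1 + 1 + 2)) ℂ), IsManifold I 2 ∧
    IsFano I 2 ∧ (∀ η : Fin (1 + 1 + 2) → ℂ, (∀ x ∈ cone I, ∑ j, η j * x j = 0) → η = 0) ∧
      ¬ ∃ f : Fin 2 → MvPolynomial (Fin (1 + 1 + 2)) ℂ, I = Ideal.span (Set.range f) :=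
  ⟨Tg.cI, Tg.cI_manifold, Tg.cI_fano, Tg.cI_nondeg, fun ⟨f, h⟩ => Tg.cI_not_two f h⟩

end Pool.Agent.Results.MP_f644fa_ag.PolyDim
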